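import Pool.Agent.MWGR.StmtsF

/-!
# Squad MWGR, row DSG: the crossing group has a generator (helper16)
-/

set_option autoImplicit false

namespace Pool.Agent.MWGR.H16

open Pool.Agent.Helper14_MV Pool.Agent.Helper2_MV Pool.Agent.MVO Pool.Agent.MWL Pool.Agent.MWS
  Pool.Agent.MWH

/-- positive exponents modulo `n` around the light letter -/
theorem expo (exg : ExgStmt) {n : ℕ} {θ : FIC} (hB : BG n (RR θ)) {s s' t t' : ℕ} (hs : 1 ≤ s)
    (hs' : 1 ≤ s') (ht : 1 ≤ t) (ht' : 1 ≤ t') (h1 : s ≡ s' [MOD n]) (h2 : t ≡ t' [MOD n]) :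
    RR θ (X s ++ 1 :: (X t ++ [2, 1])) (X s' ++ 1 :: (X t' ++ [2, 1])) := by
  have a1 : RR θ (X s ++ 1 :: (X t ++ [2, 1])) (X s' ++ 1 :: (X t ++ [2, 1])) := by
    obtain ⟨k, rfl⟩ : ∃ k, t = k + 1 := ⟨t - 1, by omega⟩
    have h := (exg n θ hB [] (1 :: (X (k + 1) ++ [2, 1])) 0 s s' h1).2.2.2 [1]
      (X k ++ [2, 1]) (by simp [X, List.replicate_succ]) hs hs' (by
        intro c hc _
        rw [List.mem_singleton] at hc
        rw [hc]
        simp [X, List.count_replicate])
    simpa only [List.nil_append, X] using h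
  have a2 : RR θ (X s' ++ 1 :: (X t ++ [2, 1])) (X s' ++ 1 :: (X t' ++ [2, 1])) := by
    have h := (exg n θ hB (X s' ++ [1]) [2, 1] 0 t t' h2).1 (by
      rw [List.mem_append]
      left
      exact List.mem_replicate.2 ⟨by omega, rfl⟩) ht ht'
    simpa only [List.append_assoc, List.cons_append, List.nil_append, X] using h
  exact θ.trans a1 a2

/-- **DSG** -/
theorem dsg (exg : ExgStmt) (dcr : DcrStmt) : DsgStmt := by
  intro n θ hB
  have hn := hB.pos
  -- `0 ∈ C`
  have c0 : Dm n 0 (RR θ) := by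
    unfold Dm
    rw [Nat.add_zero]
    exact RR.refl _
  -- closed under congruence
  have cc : ∀ d d', d ≡ d' [MOD n] → Dm n d (RR θ) → Dm n d' (RR θ) := by
    intro d d' h hd
    unfold Dm at hd ⊢
    have e1 : n + d ≡ n + d' [MOD n] := Nat.ModEq.add_left n h
    have e0 : n ≡ n [MOD n] := Nat.ModEq.refl n
    exact θ.trans (expo exg hB (by omega) (by omega) hn hn e1.symm e0)
      (θ.trans hd (expo exg hB hn hn (by omega) (by omega) e0 e1))
  -- closed under sums
  have cp : ∀ d d', Dm n d (RR θ) → Dm n d' (RR θ) → Dm n (d + d') (RR θ) := by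
    intro d d' hd hd'
    have a1 := dcr n θ hB d hd [] [2, 1] 0 1 (n + d') n (by decide) (by omega) hn (by simp)
    have a2 := dcr n θ hB d' hd' [] [2, 1] 0 1 n (n + d) (by decide) hn (by omega) (by simp)
    unfold Dm
    have e1 : n + (d + d') = n + d' + d := by omega
    have e2 : n + (d + d') = n + d + d' := by omega
    rw [List.nil_append, List.nil_append] at a1 a2
    have a3 := θ.trans a1 a2
    rw [show n + d' + d = n + (d + d') by omega, show n + d + d' = n + (d + d') by omega] at a3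
    exact a3
  have cm : ∀ k d, Dm n d (RR θ) → Dm n (k * d) (RR θ) := by
    intro k d hd
    induction k with
    | zero => rw [Nat.zero_mul]; exact c0
    | succ k ih => rw [Nat.succ_mul]; exact cp _ _ ih hd
  -- differences
  have cs : ∀ d d', d' ≤ d → Dm n d (RR θ) → Dm n d' (RR θ) → Dm n (d - d') (RR θ) := by
    intro d d' h hd hd'
    refine cc (d + (n - 1) * d') (d - d') ?_ (cp _ _ hd (cm (n - 1) d' hd'))
    obtain ⟨m, rfl⟩ : ∃ m, n = m + 1 := ⟨n - 1, by omega⟩
    obtain ⟨e, rfl⟩ : ∃ e, d = d' + e := ⟨d - d', by omega⟩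
    rw [Nat.add_sub_cancel_left, Nat.add_sub_cancel]
    have : d' + e + m * d' = e + (m + 1) * d' := by ring
    rw [this]
    unfold Nat.ModEq
    rw [Nat.add_mul_mod_self_left]
  have cn : Dm n n (RR θ) := by
    refine cc 0 n ?_ c0
    unfold Nat.ModEq
    rw [Nat.mod_self, Nat.zero_mod]
  classical
  have hex : ∃ m, 1 ≤ m ∧ Dm n m (RR θ) := ⟨n, hn, cn⟩
  obtain ⟨h1, h2⟩ := Nat.find_spec hex
  have hmin : ∀ d, 1 ≤ d → Dm n d (RR θ) → Nat.find hex ≤ d := fun d hd hd' =>
    Nat.find_min' hex ⟨hd, hd'⟩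
  have key : ∀ d, Dm n d (RR θ) ↔ Nat.find hex ∣ d := by
    intro d
    constructor
    · intro hd
      have hr : Dm n (d - d / Nat.find hex * Nat.find hex) (RR θ) :=
        cs _ _ (Nat.div_mul_le_self d _) hd (cm _ _ h2)
      have hlt : d % Nat.find hex < Nat.find hex := Nat.mod_lt _ h1
      have hdm : d - d / Nat.find hex * Nat.find hex = d % Nat.find hex := by
        have := Nat.div_add_mod' d (Nat.find hex)
        omega
      rw [hdm] at hr
      by_contra hnd
      have : 1 ≤ d % Nat.find hex := by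
        rcases Nat.eq_zero_or_pos (d % Nat.find hex) with h | h
        · exact absurd (Nat.dvd_of_mod_eq_zero h) hnd
        · exact h
      have := hmin _ this hr
      omega
    · rintro ⟨k, rfl⟩
      rw [Nat.mul_comm]
      exact cm _ _ h2
  exact ⟨Nat.find hex, h1, (key n).1 cn, key⟩

end Pool.Agent.MWGR.H16
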