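import Pool.Agent.MWGR.StmtsN

/-!
# Squad MWGR, row EVL: evaluation with weights (helper16)
-/

set_option autoImplicit false

namespace Pool.Agent.MWGR.H16

open Pool.Agent.Helper14_MV Pool.Agent.Helper2_MV Pool.Agent.MVO Pool.Agent.MWL Pool.Agent.MWS
  Pool.Agent.MWH

theorem sum_step (m : ℕ → ℕ) (c : ℕ) (l : List ℕ) (R : List ℕ) (hR : R.Nodup) :
    (R.map (fun x => m x * (c :: l).count x)).sum =
      (if c ∈ R then m c else 0) + (R.map (fun x => m x * l.count x)).sum := by
  induction R with
  | nil => simp
  | cons y R ih =>
    rw [List.nodup_cons] at hR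
    rw [List.map_cons, List.sum_cons, List.map_cons, List.sum_cons, ih hR.2]
    by_cases h : y = c
    · subst h
      rw [List.count_cons_self, if_neg hR.1, if_pos List.mem_cons_self]
      ring
    · have h1 : (c :: l).count y = l.count y := List.count_cons_of_ne (Ne.symm h)
      have h2 : c ∈ y :: R ↔ c ∈ R := by
        rw [List.mem_cons]
        constructor
        · rintro (h3 | h3)
          · exact absurd h3.symm h
          · exact h3
        · exact Or.inr
      rw [h1]
      simp only [h2]
      ring

/-- **EVL** -/
theorem evl : EvlStmt := by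
  intro R m l σ hR
  induction l with
  | nil =>
    intro _
    have : (R.map (fun x => m x * ([] : List ℕ).count x)).sum = 0 := by
      rw [List.sum_eq_zero]
      intro y hy
      rw [List.mem_map] at hy
      obtain ⟨x, -, rfl⟩ := hy
      simp
    rw [this]
    rfl
  | cons c l ih =>
    intro h
    rw [List.flatMap_cons, ih (fun d hd => h d (List.mem_cons_of_mem _ hd)),
      h c List.mem_cons_self, sum_step m c l R hR]
    by_cases hc : c ∈ R
    · rw [if_pos hc, if_pos hc]
      unfold X
      rw [← List.replicate_add]
    · rw [if_neg hc, if_neg hc, List.nil_append, Nat.zero_add]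

end Pool.Agent.MWGR.H16
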