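import Pool.Agent.MWGR.StmtsC

/-!
# Squad MWGR, row MV3: crossing gives all changes of labels (helper16)
-/

set_option autoImplicit false

namespace Pool.Agent.MWGR.H16

open Pool.Agent.Helper14_MV Pool.Agent.Helper2_MV Pool.Agent.MVO Pool.Agent.MWL Pool.Agent.MWS
  Pool.Agent.MWH

/-- the numbers of occurrences decide -/
theorem ok_of_count {H pre suf l l' : List ℕ} {x : ℕ} (h : Ok1 H pre suf l) (hx : x ∈ H)
    (h1 : ∀ c, c ≠ x → l'.count c = l.count c) (h2 : l.count x ≤ l'.count x) :
    Ok1 H pre suf l' := by
  refine ⟨h.nd, fun y hy => ?_, fun y hy hyH => ?_⟩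
  · by_cases hyx : y = x
    · rw [hyx]
      exact le_trans (h.hv x hx) h2
    · rw [h1 y hyx]
      exact h.hv y hy
  · have hyx : y ≠ x := fun e => hyH (e ▸ hx)
    rw [h1 y hyx]
    apply h.lt y _ hyH
    rw [← List.count_pos_iff, ← h1 y hyx, List.count_pos_iff]
    exact hy

theorem step {n : ℕ} {η : FIC} (hB : BG n (RR η)) {H pre suf : List ℕ} {x a : ℕ} (ha : a ∉ H)
    (hC : CrW η H pre suf x a) (s : ℕ) : CRo n η H pre suf x a s (s + 1) := by
  intro A D hok
  have hn := hB.pos
  obtain ⟨k, hk⟩ : ∃ k, n + s = k + 1 := ⟨n + s - 1, by omega⟩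
  obtain ⟨m, hm⟩ : ∃ m, n + (n - 1) * s = m + 1 := ⟨n + (n - 1) * s - 1, by omega⟩
  have hm2 : n + (n - 1) * (s + 1) = m + n := by
    rw [Nat.mul_add, Nat.mul_one]
    omega
  have hk2 : n + (s + 1) = k + 1 + 1 := by omega
  rw [hk2, hm2]
  rw [hk, hm] at hok ⊢
  -- `x ≠ a`, `x ∈ H`
  have hmem : a ∈ A ++ (List.replicate (k + 1) x ++ a :: (List.replicate (m + 1) x ++ D)) := by
    simp
  obtain ⟨ha1, ha2, ha3⟩ := hok.lt a hmem ha
  have hxa : x ≠ a := by
    rintro rfl
    simp only [List.count_append, List.count_cons_self, List.count_replicate_self] at ha1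
    omega
  have hxH : x ∈ H := by
    by_contra hxH
    have h1 := (hok.lt x (by simp) hxH).1
    simp only [List.count_append, List.count_cons_of_ne (Ne.symm hxa),
      List.count_replicate_self] at h1
    omega
  -- first step
  have s1 : RR η (Wd pre suf (A ++ (List.replicate (k + 1) x ++
      a :: (List.replicate (m + 1) x ++ D))))
      (Wd pre suf (A ++ (List.replicate (k + 1) x ++
        a :: (List.replicate (n + (m + 1)) x ++ D)))) := by
    have h1 := hB.it (pre ++ (A ++ List.replicate k x)) [a] []
      (List.replicate m x ++ (D ++ suf)) x (by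
        intro c hc
        rw [List.append_nil, List.mem_singleton] at hc
        rw [hc]
        have h2 : 0 < suf.count a := List.count_pos_iff.2 ha3
        simp only [List.count_append, List.count_cons, List.nil_append]
        simp
        omega)
    have e1 : pre ++ (A ++ List.replicate k x) ++ x :: ([a] ++ ([] ++ x ::
        (List.replicate m x ++ (D ++ suf)))) =
        Wd pre suf (A ++ (List.replicate (k + 1) x ++
          a :: (List.replicate (m + 1) x ++ D))) := by
      unfold Wd
      rw [List.replicate_succ' (n := k), List.replicate_succ (n := m)]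
      simp [List.append_assoc]
    have e2 : pre ++ (A ++ List.replicate k x) ++ x :: ([a] ++ (List.replicate n x ++ ([] ++ x ::
        (List.replicate m x ++ (D ++ suf))))) =
        Wd pre suf (A ++ (List.replicate (k + 1) x ++
          a :: (List.replicate (n + (m + 1)) x ++ D))) := by
      unfold Wd
      rw [List.replicate_succ' (n := k), List.replicate_add, List.replicate_succ (n := m)]
      simp [List.append_assoc]
    rw [e1, e2] at h1
    exact h1
  -- second step
  have e3 : A ++ (List.replicate (k + 1) x ++ a :: (List.replicate (n + (m + 1)) x ++ D)) =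
      (A ++ List.replicate (k + 1) x) ++ a :: x :: (List.replicate (m + n) x ++ D) := by
    rw [show n + (m + 1) = (m + n) + 1 by omega, List.replicate_succ (n := m + n)]
    simp [List.append_assoc]
  have e4 : A ++ (List.replicate (k + 1 + 1) x ++ a :: (List.replicate (m + n) x ++ D)) =
      (A ++ List.replicate (k + 1) x) ++ x :: a :: (List.replicate (m + n) x ++ D) := by
    rw [List.replicate_succ' (n := k + 1)]
    simp [List.append_assoc]
  rw [e4]
  refine η.trans s1 ?_
  rw [e3]
  apply RR.symm
  apply hC
  · rw [List.mem_append]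
    left
    rw [List.mem_replicate]
    exact ⟨by omega, rfl⟩
  · apply ok_of_count hok hxH
    · intro c hc
      simp only [List.count_append, List.count_cons, List.count_replicate]
      have h1 : (x == c) = false := by simpa using Ne.symm hc
      rw [h1]
      simp
    · simp only [List.count_append, List.count_cons_of_ne (Ne.symm hxa), List.count_cons_self,
        List.count_replicate_self]
      omega

/-- **MV3** -/
theorem mv3 (crm : CrmStmt) : Mv3Stmt := by
  intro n η hB H pre suf x a ha hC s s'
  obtain ⟨c1, c2, c3⟩ := crm n η hB H pre suf x a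
  have h0 : ∀ s, CRo n η H pre suf x a 0 s := by
    intro s
    induction s with
    | zero => exact c1 0 0 rfl
    | succ s ih => exact c3 0 s (s + 1) ih (step hB ha hC s)
  exact c3 s 0 s' (c2 0 s (h0 s)) (h0 s')

end Pool.Agent.MWGR.H16
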